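import Pool.Agent.Lib_helper47.MOD.Defs
import Pool.Agent.Lib_helper92.RC.Bridge
import Pool.Agent.Lib_helper98.RenyiCfc

/-!
# `tau` and `eta` of a tensor product at `z = 0`
-/

set_option autoImplicit false

open scoped BigOperators ComplexOrder Kronecker MatrixOrder
open MeasureTheory Set Matrix

namespace Pool.Agent.Lib_helper51.FS

open Pool.Agent.RC

variable {ι κ : Type} [Fintype ι] [DecidableEq ι] [Fintype κ] [DecidableEq κ]

/-! ### scalar facts -/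

theorem gp_eq_pos {p x : ℝ} (hx : 0 ≤ x) : gp p x = |x| ^ (p - 1) := by
  unfold gp
  rw [max_eq_left hx, abs_of_nonneg hx]

theorem gp_eq_zero {p x : ℝ} (hp : 1 < p) (hx : x ≤ 0) : gp p x = 0 := by
  unfold gp
  rw [max_eq_right hx, Real.zero_rpow (by linarith)]

theorem pp_add_neg {p : ℝ} (hp : 0 < p) (x : ℝ) : INE.pp p x + INE.pp p (-x) = |x| ^ p := by
  unfold INE.pp
  rcases le_total 0 x with h | h
  · rw [max_eq_left h, max_eq_right (by linarith : -x ≤ 0), Real.zero_rpow hp.ne', add_zero,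
      abs_of_nonneg h]
  · rw [max_eq_right h, max_eq_left (by linarith : 0 ≤ -x), Real.zero_rpow hp.ne', zero_add,
      abs_of_nonpos h]

theorem gp_comb {p : ℝ} (hp : 1 < p) (d x : ℝ) :
    gp p d * (x - d) + gp p (-d) * (x + d) = |d| ^ (p - 1) * x - |d| ^ p := by
  have key : |d| ^ (p - 1) * |d| = |d| ^ p := by
    rcases eq_or_lt_of_le (abs_nonneg d) with h | h
    · rw [← h, mul_zero, Real.zero_rpow (by linarith)]
    · nth_rewrite 2 [show |d| = |d| ^ (1 : ℝ) from (Real.rpow_one _).symm]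
      rw [← Real.rpow_add h]
      congr 1
      ring
  rcases le_total 0 d with h | h
  · rw [gp_eq_zero hp (by linarith : -d ≤ 0), gp_eq_pos h, ← key]
    have : |d| = d := abs_of_nonneg h
    nth_rewrite 4 [this]
    ring
  · rw [gp_eq_zero hp h, gp_eq_pos (by linarith : 0 ≤ -d), abs_neg, ← key]
    have : |d| = -d := abs_of_nonpos h
    nth_rewrite 4 [this]
    ring

/-! ### values at `z = 0` in any eigenbasis of `D` -/

theorem trF_diag (f : ℝ → ℝ) {U : Matrix ι ι ℂ} (hU : Uᴴ * U = 1) {d : ι → ℝ}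
    {D : Matrix ι ι ℂ} (hd : D = U * diagonal (fun i => (d i : ℂ)) * Uᴴ) :
    trF f D = ∑ i, f (d i) := by
  rw [hd]
  exact TRF.trF_conj f hU d

theorem neg_diag {U : Matrix ι ι ℂ} {d : ι → ℝ}
    {D : Matrix ι ι ℂ} (hd : D = U * diagonal (fun i => (d i : ℂ)) * Uᴴ) :
    -D = U * diagonal (fun i => ((-d i : ℝ) : ℂ)) * Uᴴ := by
  rw [hd]
  have e : diagonal (fun i => ((-d i : ℝ) : ℂ)) = -diagonal (fun i => (d i : ℂ)) := by
    ext i j
    by_cases hij : i = j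
    · subst hij; simp
    · simp [hij]
  rw [e, Matrix.mul_neg, Matrix.neg_mul]

theorem tau_zero_eq {p : ℝ} (hp : 0 < p) (A : Matrix ι ι ℂ) {U : Matrix ι ι ℂ} (hU : Uᴴ * U = 1)
    {d : ι → ℝ} {D : Matrix ι ι ℂ} (hd : D = U * diagonal (fun i => (d i : ℂ)) * Uᴴ) :
    tau p A D 0 = ∑ i, |d i| ^ p := by
  unfold tau
  rw [Complex.ofReal_zero, zero_smul, zero_smul, sub_zero, sub_zero, trF_diag _ hU hd,
    trF_diag _ hU (neg_diag hd), ← Finset.sum_add_distrib]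
  exact Finset.sum_congr rfl fun i _ => pp_add_neg hp (d i)

theorem trace_cfc_diag (g : ℝ → ℝ) {U : Matrix ι ι ℂ} (hU : Uᴴ * U = 1)
    {d : ι → ℝ} {D : Matrix ι ι ℂ} (hd : D = U * diagonal (fun i => (d i : ℂ)) * Uᴴ)
    (X : Matrix ι ι ℂ) :
    ((cfc g D * X).trace).re = ∑ i, g (d i) * ((Uᴴ * X * U) i i).re := by
  rw [hd, Pool.Agent.Lib_helper98.Renyi.cfc_conj_diagonal g U hU d]
  have e : (U * diagonal (fun i => ((g (d i) : ℝ) : ℂ)) * Uᴴ * X).trace =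
      (diagonal (fun i => ((g (d i) : ℝ) : ℂ)) * (Uᴴ * X * U)).trace := by
    rw [Matrix.mul_assoc, Matrix.mul_assoc, Matrix.trace_mul_comm, Matrix.mul_assoc]
  rw [e, Matrix.trace, Complex.re_sum]
  apply Finset.sum_congr rfl
  intro i _
  rw [Matrix.diag_apply, Matrix.diagonal_mul, Complex.re_ofReal_mul]

theorem eta_zero_eq {p : ℝ} (hp : 1 < p) (A : Matrix ι ι ℂ) {U : Matrix ι ι ℂ} (hU : Uᴴ * U = 1)
    {d : ι → ℝ} {D : Matrix ι ι ℂ} (hd : D = U * diagonal (fun i => (d i : ℂ)) * Uᴴ) :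
    eta p A D 0 = p * ∑ i, (|d i| ^ (p - 1) * ((Uᴴ * A * U) i i).re - |d i| ^ p) := by
  have hDD : Uᴴ * D * U = diagonal (fun i => (d i : ℂ)) := by
    rw [hd]
    calc Uᴴ * (U * diagonal (fun i => (d i : ℂ)) * Uᴴ) * U =
        (Uᴴ * U) * diagonal (fun i => (d i : ℂ)) * (Uᴴ * U) := by
          simp only [Matrix.mul_assoc]
      _ = _ := by rw [hU, Matrix.one_mul, Matrix.mul_one]
  unfold eta
  rw [Complex.ofReal_zero, zero_smul, zero_smul, sub_zero, sub_zero,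
    trace_cfc_diag _ hU hd, trace_cfc_diag _ hU (neg_diag hd), ← Finset.sum_add_distrib]
  congr 1
  apply Finset.sum_congr rfl
  intro i _
  have h1 : ((Uᴴ * (A - D) * U) i i).re = ((Uᴴ * A * U) i i).re - d i := by
    rw [Matrix.mul_sub, Matrix.sub_mul, hDD, Matrix.sub_apply, Matrix.diagonal_apply_eq,
      Complex.sub_re, Complex.ofReal_re]
  have h2 : ((Uᴴ * (A + D) * U) i i).re = ((Uᴴ * A * U) i i).re + d i := by
    rw [Matrix.mul_add, Matrix.add_mul, hDD, Matrix.add_apply, Matrix.diagonal_apply_eq,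
      Complex.add_re, Complex.ofReal_re]
  rw [h1, h2, gp_comb hp]

/-! ### tensor products -/

theorem kron_one {U : Matrix ι ι ℂ} {V : Matrix κ κ ℂ} (h : Uᴴ * U = 1) (h' : Vᴴ * V = 1) :
    (U ⊗ₖ V)ᴴ * (U ⊗ₖ V) = 1 := by
  rw [Matrix.conjTranspose_kronecker, ← Matrix.mul_kronecker_mul, h, h',
    Matrix.one_kronecker_one]

theorem kron_diag {U : Matrix ι ι ℂ} {V : Matrix κ κ ℂ} {d : ι → ℝ} {e : κ → ℝ}
    {D₁ : Matrix ι ι ℂ} {D₂ : Matrix κ κ ℂ}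
    (h1 : D₁ = U * diagonal (fun i => (d i : ℂ)) * Uᴴ)
    (h2 : D₂ = V * diagonal (fun i => (e i : ℂ)) * Vᴴ) :
    D₁ ⊗ₖ D₂ = (U ⊗ₖ V) * diagonal (fun x : ι × κ => ((d x.1 * e x.2 : ℝ) : ℂ)) *
      (U ⊗ₖ V)ᴴ := by
  have e1 : diagonal (fun x : ι × κ => ((d x.1 * e x.2 : ℝ) : ℂ)) =
      diagonal (fun i => (d i : ℂ)) ⊗ₖ diagonal (fun k => (e k : ℂ)) := by
    rw [Matrix.diagonal_kronecker_diagonal]
    congr 1
    funext x
    push_cast
    rfl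
  rw [e1, Matrix.conjTranspose_kronecker, ← Matrix.mul_kronecker_mul,
    ← Matrix.mul_kronecker_mul, ← h1, ← h2]

theorem diag_im {U N : Matrix ι ι ℂ} (hN : N.IsHermitian) (i : ι) :
    ((Uᴴ * N * U) i i).im = 0 := by
  have h : (Uᴴ * N * U).IsHermitian := Matrix.isHermitian_conjTranspose_mul_mul U hN
  have h1 := h.apply i i
  rw [RCLike.star_def] at h1
  exact Complex.conj_eq_iff_im.1 h1

theorem tau_kron_zero {p : ℝ} (hp : 0 < p) (A₁ : Matrix ι ι ℂ) (A₂ : Matrix κ κ ℂ)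
    {D₁ : Matrix ι ι ℂ} {D₂ : Matrix κ κ ℂ} (hD₁ : D₁.IsHermitian) (hD₂ : D₂.IsHermitian) :
    tau p (A₁ ⊗ₖ A₂) (D₁ ⊗ₖ D₂) 0 = tau p A₁ D₁ 0 * tau p A₂ D₂ 0 := by
  obtain ⟨U, d, hU, -, hd⟩ := Pool.Agent.Lib_helper98.Renyi.exists_spectral hD₁
  obtain ⟨V, e, hV, -, he⟩ := Pool.Agent.Lib_helper98.Renyi.exists_spectral hD₂
  rw [tau_zero_eq hp _ hU hd, tau_zero_eq hp _ hV he,
    tau_zero_eq hp _ (kron_one hU hV) (kron_diag hd he), Finset.sum_mul_sum,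
    ← Finset.univ_product_univ, Finset.sum_product]
  apply Finset.sum_congr rfl
  intro i _
  apply Finset.sum_congr rfl
  intro k _
  rw [abs_mul, Real.mul_rpow (abs_nonneg _) (abs_nonneg _)]

theorem eta_kron_zero {p : ℝ} (hp : 1 < p) {A₁ : Matrix ι ι ℂ} {A₂ : Matrix κ κ ℂ}
    {D₁ : Matrix ι ι ℂ} {D₂ : Matrix κ κ ℂ} (hA₁ : A₁.IsHermitian) (hD₁ : D₁.IsHermitian)
    (hD₂ : D₂.IsHermitian) :
    eta p (A₁ ⊗ₖ A₂) (D₁ ⊗ₖ D₂) 0 = tau p A₁ D₁ 0 * eta p A₂ D₂ 0 +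
      tau p A₂ D₂ 0 * eta p A₁ D₁ 0 + eta p A₁ D₁ 0 * eta p A₂ D₂ 0 / p := by
  have hp0 : 0 < p := by linarith
  obtain ⟨U, d, hU, -, hd⟩ := Pool.Agent.Lib_helper98.Renyi.exists_spectral hD₁
  obtain ⟨V, e, hV, -, he⟩ := Pool.Agent.Lib_helper98.Renyi.exists_spectral hD₂
  rw [tau_zero_eq hp0 _ hU hd, tau_zero_eq hp0 _ hV he, eta_zero_eq hp _ hU hd,
    eta_zero_eq hp _ hV he, eta_zero_eq hp _ (kron_one hU hV) (kron_diag hd he)]
  set T := ∑ i, |d i| ^ p with hT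
  set T' := ∑ i, |e i| ^ p with hT'
  set X := ∑ i, |d i| ^ (p - 1) * ((Uᴴ * A₁ * U) i i).re with hX
  set X' := ∑ i, |e i| ^ (p - 1) * ((Vᴴ * A₂ * V) i i).re with hX'
  have s1 : ∑ i, (|d i| ^ (p - 1) * ((Uᴴ * A₁ * U) i i).re - |d i| ^ p) = X - T := by
    rw [Finset.sum_sub_distrib]
  have s2 : ∑ i, (|e i| ^ (p - 1) * ((Vᴴ * A₂ * V) i i).re - |e i| ^ p) = X' - T' := by
    rw [Finset.sum_sub_distrib]
  have s3 : ∑ x : ι × κ, (|d x.1 * e x.2| ^ (p - 1) *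
      (((U ⊗ₖ V)ᴴ * (A₁ ⊗ₖ A₂) * (U ⊗ₖ V)) x x).re - |d x.1 * e x.2| ^ p) =
      X * X' - T * T' := by
    rw [Finset.sum_sub_distrib, hX, hX', hT, hT', Finset.sum_mul_sum, Finset.sum_mul_sum,
      ← Finset.univ_product_univ, Finset.sum_product, Finset.sum_product]
    congr 1
    · apply Finset.sum_congr rfl
      intro i _
      apply Finset.sum_congr rfl
      intro k _
      have h1 : (U ⊗ₖ V)ᴴ * (A₁ ⊗ₖ A₂) * (U ⊗ₖ V) = (Uᴴ * A₁ * U) ⊗ₖ (Vᴴ * A₂ * V) := by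
        rw [Matrix.conjTranspose_kronecker, ← Matrix.mul_kronecker_mul,
          ← Matrix.mul_kronecker_mul]
      rw [h1, Matrix.kroneckerMap_apply, abs_mul, Real.mul_rpow (abs_nonneg _) (abs_nonneg _),
        Complex.mul_re]
      have h2 : ((Uᴴ * A₁ * U) i i).im = 0 := diag_im hA₁ i
      show |d i| ^ (p - 1) * |e k| ^ (p - 1) * (((Uᴴ * A₁ * U) i i).re *
        ((Vᴴ * A₂ * V) k k).re - ((Uᴴ * A₁ * U) i i).im * ((Vᴴ * A₂ * V) k k).im) = _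
      rw [h2]
      ring
    · apply Finset.sum_congr rfl
      intro i _
      apply Finset.sum_congr rfl
      intro k _
      rw [abs_mul, Real.mul_rpow (abs_nonneg _) (abs_nonneg _)]
  rw [s1, s2, s3]
  field_simp
  ring

end Pool.Agent.Lib_helper51.FS
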